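import Pool.Agent.J4H58.XC.Stm2

/-!
# Project XC, job X8 (CGX): the comparison on the grid
-/

set_option autoImplicit false

namespace Pool.Agent.J4H60.XC

open Finset Pool.Agent.J4H58.XC

variable {n N : ℕ}

open Classical in
theorem mem_sts {Y : Type} [DecidableEq Y] {B : Finset Y} {R : Fin n → Fin n → Prop}
    {t : Y × Equiv.Perm (Fin n)} : t ∈ sts B R ↔ t.1 ∈ B ∧ t.2 ∈ Lin R := by
  unfold sts
  rw [Finset.mem_product, Finset.mem_filter]
  simp

theorem mem_box {x : Fin n → ℕ} : x ∈ box n N ↔ ∀ i, x i ≤ N := by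
  unfold Pool.Agent.J4H58.XC.box
  simp [Fintype.mem_piFinset, Nat.lt_succ_iff]

theorem mem_mb {x : Fin n → ℕ} : x ∈ mb n N ↔ (∀ i, x i ≤ N) ∧ Monotone x := by
  unfold mb
  rw [Finset.mem_filter, mem_box]

/-- the energy of the edge from `x` to `x + e_i` -/
noncomputable def ht (N : ℕ) (s : (Fin n → ℕ) → Fin n → ℝ) (f : (Fin n → ℕ) → ℝ)
    (x : Fin n → ℕ) (i : Fin n) : ℝ :=
  if x i < N then s x i * (f (x + Pi.single i 1) - f x) ^ 2 else 0

/-- the local energy at the point `x` of the grid -/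
noncomputable def hh (N : ℕ) (s : (Fin n → ℕ) → Fin n → ℝ) (f : (Fin n → ℕ) → ℝ)
    (x : Fin n → ℕ) : ℝ :=
  ∑ i : Fin n, ht N s f x i

theorem hh_nonneg {s : (Fin n → ℕ) → Fin n → ℝ} (hs : ∀ x i, 0 < s x i) (f : (Fin n → ℕ) → ℝ)
    (x : Fin n → ℕ) : 0 ≤ hh N s f x := by
  unfold hh ht
  refine Finset.sum_nonneg fun i _ => ?_
  split_ifs
  · exact mul_nonneg (hs x i).le (sq_nonneg _)
  · exact le_rfl

open Classical in
theorem inner_le {r : (Fin n → ℕ) → ℝ} {s : (Fin n → ℕ) → Fin n → ℝ} (hW : Wt n r s)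
    (f : (Fin n → ℕ) → ℝ) (R : Fin n → Fin n → Prop) (y : Fin n → ℕ) (q : Equiv.Perm (Fin n)) :
    ∑ t ∈ sts (mb n N) R, (if q = t.2 then
      ∑ k : Fin n, (if t.1 = y + Pi.single k 1 then s y k else 0) else 0) *
        (f (t.1 ∘ ⇑t.2⁻¹) - f (y ∘ ⇑q⁻¹)) ^ 2 ≤ hh N s f (y ∘ ⇑q⁻¹) := by
  have h1 : ∑ t ∈ sts (mb n N) R, (if q = t.2 then
      ∑ k : Fin n, (if t.1 = y + Pi.single k 1 then s y k else 0) else 0) *
        (f (t.1 ∘ ⇑t.2⁻¹) - f (y ∘ ⇑q⁻¹)) ^ 2 =
      ∑ k : Fin n, ∑ t ∈ sts (mb n N) R, (if (y + Pi.single k 1, q) = t then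
        s y k * (f ((y + Pi.single k 1) ∘ ⇑q⁻¹) - f (y ∘ ⇑q⁻¹)) ^ 2 else 0) := by
    rw [Finset.sum_comm]
    refine Finset.sum_congr rfl fun t _ => ?_
    by_cases hq : q = t.2
    · rw [if_pos hq, Finset.sum_mul]
      refine Finset.sum_congr rfl fun k _ => ?_
      by_cases hk : t.1 = y + Pi.single k 1
      · have ht : (y + Pi.single k 1, q) = t := Prod.ext hk.symm hq
        rw [if_pos hk, if_pos ht, hk, ← hq]
      · have ht : (y + Pi.single k 1, q) ≠ t := fun h => hk (by rw [← h])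
        rw [if_neg hk, if_neg ht, zero_mul]
    · rw [if_neg hq, zero_mul]
      symm
      refine Finset.sum_eq_zero fun k _ => ?_
      have ht : (y + Pi.single k 1, q) ≠ t := fun h => hq (by rw [← h])
      rw [if_neg ht]
  rw [h1]
  unfold hh
  rw [← Equiv.sum_comp q (ht N s f (y ∘ ⇑q⁻¹))]
  refine Finset.sum_le_sum fun k _ => ?_
  unfold ht
  rw [Finset.sum_ite_eq]
  have hx : (y ∘ ⇑q⁻¹) (q k) = y k := by simp
  have hsx : s (y ∘ ⇑q⁻¹) (q k) = s y k := by
    rw [← hW.ssym (y ∘ ⇑q⁻¹) q k]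
    congr 1
    funext j
    simp
  have hsh : (y + Pi.single k 1) ∘ ⇑q⁻¹ = y ∘ ⇑q⁻¹ + Pi.single (q k) 1 := by
    funext j
    simp only [Function.comp_apply, Pi.add_apply, Pi.single_apply, Equiv.Perm.inv_eq_iff_eq]
  rw [hx, hsx, hsh]
  by_cases hm : (y + Pi.single k 1, q) ∈ sts (mb n N) R
  · rw [if_pos hm]
    have h2 := (mem_mb.1 (mem_sts.1 hm).1).1 k
    have h3 : y k < N := by
      simp at h2
      omega
    rw [if_pos h3]
  · rw [if_neg hm]
    split_ifs
    · exact mul_nonneg (hW.spos y k).le (sq_nonneg _)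
    · exact le_rfl

open Classical in
theorem en_le {r : (Fin n → ℕ) → ℝ} {s : (Fin n → ℕ) → Fin n → ℝ} (hW : Wt n r s)
    (f : (Fin n → ℕ) → ℝ) (R : Fin n → Fin n → Prop) (Λ : ℝ) :
    en (sts (mb n N) R) (cd (ga s) (gl Λ)) (fun t => f (t.1 ∘ ⇑t.2⁻¹)) ≤
      ∑ t ∈ sts (mb n N) R, hh N s f (t.1 ∘ ⇑t.2⁻¹) := by
  set β : (Fin n → ℕ) × Equiv.Perm (Fin n) → (Fin n → ℕ) × Equiv.Perm (Fin n) → ℝ := fun u t =>
    (if u.2 = t.2 then ∑ k : Fin n, (if t.1 = u.1 + Pi.single k 1 then s u.1 k else 0) else 0) *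
        (f (t.1 ∘ ⇑t.2⁻¹) - f (u.1 ∘ ⇑u.2⁻¹)) ^ 2 with hβ
  have hc : ∀ u t : (Fin n → ℕ) × Equiv.Perm (Fin n), cd (ga s) (gl Λ) u t *
      (f (t.1 ∘ ⇑t.2⁻¹) - f (u.1 ∘ ⇑u.2⁻¹)) ^ 2 = β u t + β t u := by
    intro u t
    have hex : (if u.1 = t.1 then ∑ i : Fin n, ∑ j : Fin n,
        (if (i : ℕ) + 1 = j ∧ t.2 = u.2 * Equiv.swap i j then gl Λ i u.1 else 0) else 0) *
        (f (t.1 ∘ ⇑t.2⁻¹) - f (u.1 ∘ ⇑u.2⁻¹)) ^ 2 = 0 := by
      by_cases h1 : u.1 = t.1
      · rw [if_pos h1, Finset.sum_mul]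
        refine Finset.sum_eq_zero fun i _ => ?_
        rw [Finset.sum_mul]
        refine Finset.sum_eq_zero fun j _ => ?_
        by_cases h2 : (i : ℕ) + 1 = j ∧ t.2 = u.2 * Equiv.swap i j
        · rw [if_pos h2]
          unfold gl
          by_cases h3 : ∃ i' j' : Fin n, (i' : ℕ) = (i : ℕ) ∧ (j' : ℕ) = (i : ℕ) + 1 ∧
              u.1 i' = u.1 j'
          · obtain ⟨i', j', hi', hj', he⟩ := h3
            have e1 : i' = i := Fin.ext hi'
            have e2 : j' = j := Fin.ext (by omega)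
            subst e1 e2
            have h4 : t.1 ∘ ⇑t.2⁻¹ = u.1 ∘ ⇑u.2⁻¹ := by
              rw [h2.2, ← h1, mul_inv_rev, Equiv.swap_inv]
              funext k
              simp only [Function.comp_apply, Equiv.Perm.mul_apply]
              generalize u.2⁻¹ k = m
              rcases eq_or_ne m i' with rfl | h5
              · rw [Equiv.swap_apply_left]; exact he.symm
              · rcases eq_or_ne m j' with rfl | h6
                · rw [Equiv.swap_apply_right]; exact he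
                · rw [Equiv.swap_apply_of_ne_of_ne h5 h6]
            rw [h4, sub_self]
            ring
          · rw [if_neg h3, zero_mul]
        · rw [if_neg h2, zero_mul]
      · rw [if_neg h1, zero_mul]
    have hcd : cd (ga s) (gl Λ) u t = (if u.2 = t.2 then ga s u.1 t.1 else 0) +
        (if u.1 = t.1 then ∑ i : Fin n, ∑ j : Fin n,
        (if (i : ℕ) + 1 = j ∧ t.2 = u.2 * Equiv.swap i j then gl Λ i u.1 else 0) else 0) := rfl
    rw [hcd, add_mul, hex, add_zero]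
    simp only [hβ]
    by_cases h1 : u.2 = t.2
    · rw [if_pos h1, if_pos h1, if_pos h1.symm]
      unfold ga
      rw [Finset.sum_add_distrib]
      ring
    · rw [if_neg h1, if_neg h1, if_neg (Ne.symm h1)]
      ring
  unfold en
  have h1 : ∑ u ∈ sts (mb n N) R, ∑ t ∈ sts (mb n N) R, cd (ga s) (gl Λ) u t *
      (f (t.1 ∘ ⇑t.2⁻¹) - f (u.1 ∘ ⇑u.2⁻¹)) ^ 2 =
      2 * ∑ u ∈ sts (mb n N) R, ∑ t ∈ sts (mb n N) R, β u t := by
    simp only [hc, Finset.sum_add_distrib]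
    rw [Finset.sum_comm (f := fun u t => β t u)]
    ring
  rw [h1, ← mul_assoc]
  norm_num only
  rw [one_mul]
  exact Finset.sum_le_sum fun u _ => inner_le hW f R u.1 u.2

/-- the point `y ∘ q⁻¹` of the grid -/
abbrev pt (t : (Fin n → ℕ) × Equiv.Perm (Fin n)) : Fin n → ℕ := t.1 ∘ ⇑t.2⁻¹

open Classical in
theorem fib_le (R : Fin n → Fin n → Prop) (x : Fin n → ℕ) :
    (((sts (mb n N) R).filter fun t => pt t = x).card : ℝ) ≤ mu x := by
  have key : ∀ t ∈ (sts (mb n N) R).filter fun t => pt t = x, t.1 = x ∘ ⇑t.2 := by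
    intro t ht
    rw [← (Finset.mem_filter.1 ht).2]
    funext j
    simp
  unfold mu
  split_ifs with hx
  · have h1 : ((sts (mb n N) R).filter fun t => pt t = x).card ≤ 1 := by
      rw [Finset.card_le_one]
      intro t ht t' ht'
      have e1 := key t ht
      have e2 := key t' ht'
      have m1 := (mem_mb.1 (mem_sts.1 (Finset.mem_filter.1 ht).1).1).2
      have m2 := (mem_mb.1 (mem_sts.1 (Finset.mem_filter.1 ht').1).1).2
      rw [e1] at m1
      rw [e2] at m2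
      have h2 := Tuple.unique_monotone m1 m2
      have h3 : t.2 = t'.2 := by
        ext j
        exact congrArg Fin.val (hx (congrFun h2 j))
      exact Prod.ext (by rw [e1, e2, h3]) h3
    exact_mod_cast h1
  · have h1 : ((sts (mb n N) R).filter fun t => pt t = x).card ≤
        (Finset.univ : Finset (Equiv.Perm (Fin n))).card := by
      refine Finset.card_le_card_of_injOn Prod.snd (fun _ _ => Finset.mem_coe.2 (Finset.mem_univ _)) ?_
      intro t ht t' ht' h
      exact Prod.ext (by rw [key t ht, key t' ht', h]) h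
    rw [Finset.card_univ, Fintype.card_perm, Fintype.card_fin] at h1
    exact_mod_cast h1

open Classical in
theorem sum_le {s : (Fin n → ℕ) → Fin n → ℝ} (hs : ∀ x i, 0 < s x i) (f : (Fin n → ℕ) → ℝ)
    (R : Fin n → Fin n → Prop) :
    ∑ t ∈ sts (mb n N) R, hh N s f (pt t) ≤
      ∑ x ∈ box n N, (if ∀ i j, R i j → x i ≤ x j then mu x * hh N s f x else 0) := by
  have hmap : ∀ t ∈ sts (mb n N) R, pt t ∈ box n N := fun t ht =>
    mem_box.2 fun i => (mem_mb.1 (mem_sts.1 ht).1).1 _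
  rw [← Finset.sum_fiberwise_of_maps_to hmap]
  refine Finset.sum_le_sum fun x _ => ?_
  have h1 : ∑ t ∈ (sts (mb n N) R).filter (fun t => pt t = x), hh N s f (pt t) =
      (((sts (mb n N) R).filter fun t => pt t = x).card : ℝ) * hh N s f x := by
    rw [Finset.sum_congr rfl (g := fun _ => hh N s f x) fun t ht => by
      rw [(Finset.mem_filter.1 ht).2], Finset.sum_const, nsmul_eq_mul]
  rw [h1]
  split_ifs with hx
  · exact mul_le_mul_of_nonneg_right (fib_le R x) (hh_nonneg hs f x)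
  · have h2 : (sts (mb n N) R).filter (fun t => pt t = x) = ∅ := by
      rw [Finset.filter_eq_empty_iff]
      intro t ht e
      apply hx
      intro i j hij
      rw [← e]
      have hm := mem_sts.1 ht
      apply (mem_mb.1 hm.1).2
      apply le_of_lt
      apply hm.2
      simpa using hij
    rw [h2, Finset.card_empty, Nat.cast_zero, zero_mul]

open Classical in
theorem lhs_le {r : (Fin n → ℕ) → ℝ} {s : (Fin n → ℕ) → Fin n → ℝ} (hW : Wt n r s)
    (f : (Fin n → ℕ) → ℝ) (R : Fin n → Fin n → Prop) (b : ℝ) :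
    ∑ x ∈ box n N, (if ∀ i j, R i j → x i < x j then r x * (f x - b) ^ 2 else 0) ≤
      ∑ t ∈ sts (mb n N) R, r t.1 * (f (t.1 ∘ ⇑t.2⁻¹) - b) ^ 2 := by
  set φ : (Fin n → ℕ) → (Fin n → ℕ) × Equiv.Perm (Fin n) := fun x => (x ∘ ⇑(Tuple.sort x), Tuple.sort x)
    with hφ
  set g : (Fin n → ℕ) × Equiv.Perm (Fin n) → ℝ := fun t => r t.1 * (f (t.1 ∘ ⇑t.2⁻¹) - b) ^ 2 with hg
  have hback : ∀ x, (φ x).1 ∘ ⇑(φ x).2⁻¹ = x := by
    intro x
    funext j
    simp [hφ]
  have hgφ : ∀ x, g (φ x) = r x * (f x - b) ^ 2 := by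
    intro x
    have h1 : r (φ x).1 = r x := hW.rsym x (Tuple.sort x)
    simp only [hg]
    rw [hback, h1]
  have hinj : Function.Injective φ := by
    intro x x' h
    rw [← hback x, ← hback x', h]
  have h1 : ∑ x ∈ box n N, (if ∀ i j, R i j → x i < x j then r x * (f x - b) ^ 2 else 0) =
      ∑ x ∈ (box n N).filter (fun x => (∀ i j, R i j → x i < x j) ∧ Function.Injective x),
        g (φ x) := by
    rw [Finset.sum_filter]
    refine Finset.sum_congr rfl fun x _ => ?_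
    by_cases h2 : ∀ i j, R i j → x i < x j
    · by_cases h3 : Function.Injective x
      · rw [if_pos h2, if_pos ⟨h2, h3⟩, hgφ]
      · rw [if_pos h2, if_neg (fun h => h3 h.2), hW.inj x h3, zero_mul]
    · rw [if_neg h2, if_neg (fun h => h2 h.1)]
  rw [h1, ← Finset.sum_image (f := g) (g := φ) (fun x _ x' _ h => hinj h)]
  refine Finset.sum_le_sum_of_subset_of_nonneg ?_ fun t _ _ => mul_nonneg (hW.nn _) (sq_nonneg _)
  intro t ht
  obtain ⟨x, hx, rfl⟩ := Finset.mem_image.1 ht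
  obtain ⟨hxb, hxR, hxi⟩ := Finset.mem_filter.1 hx
  have hmono : Monotone (x ∘ ⇑(Tuple.sort x)) := Tuple.monotone_sort x
  refine mem_sts.2 ⟨mem_mb.2 ⟨fun i => mem_box.1 hxb _, hmono⟩, ?_⟩
  intro i j hij
  by_contra hlt
  have h4 := hmono (not_lt.1 hlt)
  have h5 := hxR _ _ hij
  exact absurd h4 (not_le.2 h5)

open Classical in
theorem t_X8 : S_X8 := by
  intro hC h7 n N R r s K K' hW hK hKK hG
  obtain ⟨κ, Λ, hκ, hΛ, hP⟩ := h7 n N r s K K' hW hK hKK hG
  have hsys : Sys (mb n N) (fun y => r y + κ) (ga s) (gl (n := n) Λ) := by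
    refine ⟨fun y _ => by have := hW.nn y; linarith, ?_, ?_, ?_⟩
    · intro y z
      unfold ga
      refine Finset.sum_nonneg fun k _ => add_nonneg ?_ ?_
      · split_ifs
        · exact (hW.spos _ _).le
        · exact le_rfl
      · split_ifs
        · exact (hW.spos _ _).le
        · exact le_rfl
    · intro y z
      unfold ga
      refine Finset.sum_congr rfl fun k _ => ?_
      rw [add_comm]
    · intro k y
      unfold gl
      split_ifs
      · exact hΛ.le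
      · exact le_rfl
  have hR := hC n (Fin n → ℕ) (mb n N) (fun y => r y + κ) (ga s) (gl Λ) R K' hsys (hK.trans hKK) hP
  intro f
  set A := sts (n := n) (mb n N) R with hA
  set F : (Fin n → ℕ) × Equiv.Perm (Fin n) → ℝ := fun t => f (t.1 ∘ ⇑t.2⁻¹) with hF
  have hPF := hR F
  set M : ℝ := ∑ t ∈ A, (r t.1 + κ) with hM
  have hen : en A (cd (ga s) (gl Λ)) F ≤ _ := (en_le hW f R Λ).trans (sum_le hW.spos f R)
  have hrhs : ∀ b : ℝ, ∑ t ∈ A, r t.1 * (F t - b) ^ 2 ≤ K' * en A (cd (ga s) (gl Λ)) F →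
      ∑ x ∈ box n N, (if ∀ i j, R i j → x i < x j then r x * (f x - b) ^ 2 else 0) ≤
      K' * ∑ x ∈ box n N, (if ∀ i j, R i j → x i ≤ x j then mu x * ∑ i : Fin n,
        (if x i < N then s x i * (f (x + Pi.single i 1) - f x) ^ 2 else 0) else 0) := by
    intro b hb
    refine (lhs_le hW f R b).trans (hb.trans (mul_le_mul_of_nonneg_left ?_ (hK.trans hKK).le))
    exact hen
  rcases A.eq_empty_or_nonempty with hA0 | hA0
  · refine ⟨0, hrhs 0 ?_⟩
    rw [hA0]
    simp [en]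
  · have hM0 : 0 < M := Finset.sum_pos (fun t _ => by have := hW.nn t.1; linarith) hA0
    refine ⟨(∑ t ∈ A, (r t.1 + κ) * F t) / M, hrhs _ ?_⟩
    set b : ℝ := (∑ t ∈ A, (r t.1 + κ) * F t) / M with hb
    have hbM : ∑ t ∈ A, (r t.1 + κ) * F t = b * M := by
      rw [hb]; field_simp
    have h1 : ∑ t ∈ A, r t.1 * (F t - b) ^ 2 ≤ ∑ t ∈ A, (r t.1 + κ) * (F t - b) ^ 2 :=
      Finset.sum_le_sum fun t _ => mul_le_mul_of_nonneg_right (by linarith) (sq_nonneg _)
    have h2 : ∑ t ∈ A, (r t.1 + κ) * (F t - b) ^ 2 =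
        ∑ t ∈ A, (r t.1 + κ) * F t ^ 2 - b ^ 2 * M := by
      have h3 : ∀ t, (r t.1 + κ) * (F t - b) ^ 2 =
          (r t.1 + κ) * F t ^ 2 - 2 * b * ((r t.1 + κ) * F t) + b ^ 2 * (r t.1 + κ) := fun t => by ring
      simp only [h3]
      rw [Finset.sum_add_distrib, Finset.sum_sub_distrib, ← Finset.mul_sum, ← Finset.mul_sum, hbM]
      ring
    refine h1.trans ?_
    rw [h2]
    have h4 : M * (∑ t ∈ A, (r t.1 + κ) * F t ^ 2) - (b * M) ^ 2 ≤
        M * (K' * en A (cd (ga s) (gl Λ)) F) := by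
      rw [← hbM]
      exact hPF
    nlinarith [h4, hM0, mul_pos hM0 hM0]

end Pool.Agent.J4H60.XC
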